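import Mathlib
import Pool.Agent.Q175.PlankZ

/-!
# A completely regular subspace filling all countable subproducts

The product has a factor that is not completely regular.
-/

open Set Filter Topology
open Q175.O1 Q175.PlankZ

namespace Pool.Agent.Results.MP_9641f2_gt.CompletelyRegularFails

/-- `D` fills all countable subproducts: for every non-empty countable set `J` of indices, the
projection of `D` to the subproduct over `J` is onto. -/
def FillsCountableSubproducts {ι : Type*} {X : ι → Type*} (D : Set (∀ i, X i)) : Prop :=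
  ∀ J : Set ι, J.Nonempty → J.Countable →
    (fun (x : ∀ i, X i) (j : J) => x j) '' D = (univ : Set (∀ j : J, X j))

/-- The set `W` with the discrete topology. -/
def E : Type := W

instance : TopologicalSpace E := ⊥

instance : DiscreteTopology E := ⟨rfl⟩

instance : Nonempty E := inferInstanceAs (Nonempty W)

/-- The factors: `Z` and `ω₁` copies of `E`. -/
def X : Option Om → Type
  | none => Z
  | some _ => E

instance : ∀ i, TopologicalSpace (X i)
  | none => inferInstanceAs (TopologicalSpace Z)
  | some _ => inferInstanceAs (TopologicalSpace E)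

instance : ∀ i, T1Space (X i)
  | none => inferInstanceAs (T1Space Z)
  | some _ => inferInstanceAs (T1Space E)

/-- The coordinate in `Z`. -/
def zc (x : ∀ i, X i) : Z := x none

/-- The coordinates in `E`. -/
def ec (x : ∀ i, X i) (i : Om) : W := x (some i)

/-- The subspace. -/
def D : Set (∀ i, X i) := {x | ∀ j w, zc x = Z.k j w → ∃ i, w ≤ ec x i}

theorem continuous_zc : Continuous fun x : D => zc x.1 :=
  (continuous_apply (A := X) none).comp continuous_subtype_val

theorem isOpen_ec (i : Om) (w : W) : IsOpen {x : D | ec x.1 i = w} := by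
  have h1 : Continuous fun x : D => (x.1 (some i) : E) :=
    (continuous_apply (A := X) (some i)).comp continuous_subtype_val
  exact (isOpen_discrete ({w} : Set E)).preimage h1

/-- A sufficient condition for being a neighbourhood in `D`. -/
theorem mem_nhds_D {d : D} {S : Set D} {U : Set Z} (hU : IsOpen U) (hdU : zc d.1 ∈ U) (F : A)
    (h : ∀ x : D, zc x.1 ∈ U → (∀ i ∈ F, ec x.1 i = ec d.1 i) → x ∈ S) : S ∈ 𝓝 d := by
  have h1 : {x : D | zc x.1 ∈ U} ∈ 𝓝 d := (hU.preimage continuous_zc).mem_nhds hdU
  have h2 : (⋂ i ∈ F, {x : D | ec x.1 i = ec d.1 i}) ∈ 𝓝 d :=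
    (biInter_finset_mem F).2 fun i _ => (isOpen_ec i _).mem_nhds rfl
  filter_upwards [h1, h2] with x hx1 hx2
  exact h x hx1 fun i hi => mem_iInter₂.1 hx2 i hi

/-- Every neighbourhood in `D` contains one of this form. -/
theorem exists_of_mem_nhds_D {d : D} {S : Set D} (hS : S ∈ 𝓝 d) :
    ∃ (U : Set Z) (F : A), IsOpen U ∧ zc d.1 ∈ U ∧
      ∀ x : D, zc x.1 ∈ U → (∀ i ∈ F, ec x.1 i = ec d.1 i) → x ∈ S := by
  classical
  obtain ⟨F, u, hu, hdu, hsub⟩ := Q175.Fill.exists_box (X := X) hS
  refine ⟨u none, F.eraseNone, hu none, hdu none, fun x hx hF => hsub x ?_⟩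
  rintro (_ | i) hi
  · exact hx
  · have h1 : x.1 (some i) = d.1 (some i) := hF i (Finset.mem_eraseNone.2 hi)
    rw [h1]
    exact hdu (some i)

/-- The condition for the cut at level `m`. -/
def Good (m : ℕ) (y : Om → W) : Z → Prop
  | .top => True
  | .k j _ => m < j
  | .a j _ => m ≤ j
  | .q n w b => 2 * m < n ∨ n = 2 * m ∧ ∀ i ∈ b, y i < w

/-- The cut. -/
def C (m : ℕ) : Set D := {x | Good m (ec x.1) (zc x.1)}

theorem isClopen_C (m : ℕ) : IsClopen (C m) := by
  classical
  constructor
  · rw [← isOpen_compl_iff, isOpen_iff_mem_nhds]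
    intro d hd
    rcases hz : zc d.1 with _ | ⟨j, w⟩ | ⟨j, b⟩ | ⟨n, w, b⟩
    · exact absurd (show Good m _ (zc d.1) by rw [hz]; trivial) hd
    · have hj : ¬ m < j := fun h => hd (show Good m _ (zc d.1) by rw [hz]; exact h)
      obtain ⟨i, hi⟩ := d.2 j w hz
      refine mem_nhds_D (isOpen_nk j w {i}) (Or.inl hz) {i} fun x hx hF hg => ?_
      have hg' : Good m (ec x.1) (zc x.1) := hg
      rcases hx with h | ⟨n, b, hn, hb, h⟩
      · rw [h] at hg'
        exact hj hg'
      · rw [h] at hg'
        rcases hg' with h' | ⟨_, h'⟩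
        · omega
        · have := h' i (hb (Finset.mem_singleton_self i))
          rw [hF i (Finset.mem_singleton_self i)] at this
          exact absurd this (not_lt.2 hi)
    · have hj : ¬ m ≤ j := fun h => hd (show Good m _ (zc d.1) by rw [hz]; exact h)
      refine mem_nhds_D (isOpen_na j b (Classical.arbitrary _)) (Or.inl hz) ∅ fun x hx _ hg => ?_
      have hg' : Good m (ec x.1) (zc x.1) := hg
      rcases hx with h | ⟨n, w, hn, _, h⟩
      · rw [h] at hg'
        exact hj hg'
      · rw [h] at hg'
        rcases hg' with h' | ⟨h', _⟩ <;> omega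
    · refine mem_nhds_D (isClopen_singleton_q n w b).2 hz b fun x hx hF hg => hd ?_
      have hg' : Good m (ec x.1) (zc x.1) := hg
      show Good m (ec d.1) (zc d.1)
      rw [show zc x.1 = Z.q n w b from hx] at hg'
      rw [hz]
      rcases hg' with h | ⟨h, h'⟩
      · exact Or.inl h
      · exact Or.inr ⟨h, fun i hi => by rw [← hF i hi]; exact h' i hi⟩
  · rw [isOpen_iff_mem_nhds]
    intro d hd
    have hd' : Good m (ec d.1) (zc d.1) := hd
    rcases hz : zc d.1 with _ | ⟨j, w⟩ | ⟨j, b⟩ | ⟨n, w, b⟩
    · refine mem_nhds_D (isOpen_up (2 * m)) (Or.inl hz) ∅ fun x hx _ => ?_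
      show Good m (ec x.1) (zc x.1)
      rcases hx with h | h
      · rw [h]
        trivial
      · rcases hx : zc x.1 with _ | ⟨j, w⟩ | ⟨j, b⟩ | ⟨n, w, b⟩
        · trivial
        · rw [hx] at h
          simp only [lev] at h
          show m < j
          omega
        · rw [hx] at h
          simp only [lev] at h
          show m ≤ j
          omega
        · rw [hx] at h
          simp only [lev] at h
          exact Or.inl (by omega)
    · rw [hz] at hd'
      have hj : m < j := hd'
      refine mem_nhds_D (isOpen_nk j w ∅) (Or.inl hz) ∅ fun x hx _ => ?_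
      show Good m (ec x.1) (zc x.1)
      rcases hx with h | ⟨n, b, hn, _, h⟩
      · rw [h]
        exact hj
      · rw [h]
        exact Or.inl (by omega)
    · rw [hz] at hd'
      have hj : m ≤ j := hd'
      obtain ⟨v, hv⟩ : ∃ v : W, ∀ i ∈ b, ec d.1 i < v := by
        obtain ⟨v, hv⟩ := exists_bound_W (J := b)
          ((Cardinal.mk_lt_aleph0.le).trans aleph0_le_A) fun i => ec d.1 i
        exact ⟨v, fun i hi => hv ⟨i, hi⟩⟩
      refine mem_nhds_D (isOpen_na j b v) (Or.inl hz) b fun x hx hF => ?_
      show Good m (ec x.1) (zc x.1)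
      rcases hx with h | ⟨n, w, hn, hw, h⟩
      · rw [h]
        exact hj
      · rw [h]
        rcases Nat.lt_or_ge (2 * m) n with h' | h'
        · exact Or.inl h'
        · refine Or.inr ⟨by omega, fun i hi => ?_⟩
          rw [hF i hi]
          exact (hv i hi).trans_le hw
    · refine mem_nhds_D (isClopen_singleton_q n w b).2 hz b fun x hx hF => ?_
      show Good m (ec x.1) (zc x.1)
      rw [show zc x.1 = Z.q n w b from hx]
      rw [hz] at hd'
      rcases hd' with h | ⟨h, h'⟩
      · exact Or.inl h
      · exact Or.inr ⟨h, fun i hi => by rw [hF i hi]; exact h' i hi⟩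

theorem completelyRegular_D : CompletelyRegularSpace D := by
  classical
  refine completelyRegular_of_clopen fun d S hS => ?_
  obtain ⟨U, F, hU, hdU, hsub⟩ := exists_of_mem_nhds_D hS
  have hcyl : IsClopen {x : D | ∀ i ∈ F, ec x.1 i = ec d.1 i} := by
    have : {x : D | ∀ i ∈ F, ec x.1 i = ec d.1 i} = ⋂ i ∈ F, {x : D | ec x.1 i = ec d.1 i} := by
      ext x
      simp
    rw [this]
    refine isClopen_biInter_finset fun i _ => ⟨?_, isOpen_ec i _⟩
    have h1 : Continuous fun x : D => (x.1 (some i) : E) :=
      (continuous_apply (A := X) (some i)).comp continuous_subtype_val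
    exact (isClosed_discrete ({(ec d.1 i : E)} : Set E)).preimage h1
  by_cases ht : zc d.1 = Z.top
  · rw [ht] at hdU
    obtain ⟨m, hm⟩ := hU.1 hdU
    refine ⟨C m ∩ {x : D | ∀ i ∈ F, ec x.1 i = ec d.1 i}, (isClopen_C m).inter hcyl,
      ⟨?_, fun _ _ => rfl⟩, ?_⟩
    · show Good m (ec d.1) (zc d.1)
      rw [ht]
      trivial
    · rintro x ⟨hx, hxF⟩
      refine hsub x ?_ hxF
      have hx' : Good m (ec x.1) (zc x.1) := hx
      rcases h : zc x.1 with _ | ⟨j, w⟩ | ⟨j, b⟩ | ⟨n, w, b⟩
      · exact hdU
      · rw [h] at hx'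
        exact hm _ (le_of_lt hx')
      · rw [h] at hx'
        exact hm _ hx'
      · rw [h] at hx'
        refine hm _ ?_
        simp only [lev]
        rcases hx' with h' | ⟨h', _⟩ <;> omega
  · obtain ⟨V, hV, hdV, hVU⟩ := exists_isClopen ht hU hdU
    exact ⟨{x : D | zc x.1 ∈ V} ∩ {x : D | ∀ i ∈ F, ec x.1 i = ec d.1 i},
      (hV.preimage continuous_zc).inter hcyl, ⟨hdV, fun _ _ => rfl⟩,
      fun x hx => hsub x (hVU hx.1) hx.2⟩

theorem fills_D : FillsCountableSubproducts D := by
  classical
  intro J _ hJ
  refine eq_univ_of_forall fun x => ?_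
  have hne : ∀ i, Nonempty (X i) := by
    rintro (_ | i)
    · exact ⟨Z.top⟩
    · exact inferInstanceAs (Nonempty W)
  -- an index outside `J`
  obtain ⟨i₀, hi₀⟩ : ∃ i : Om, some i ∉ J := by
    by_contra hcon
    push Not at hcon
    apply Q175.O1.not_countable_univ
    exact (hJ.preimage (Option.some_injective Om)).mono fun i _ => hcon i
  let y : ∀ i, X i := fun i => if h : i ∈ J then x ⟨i, h⟩ else Classical.arbitrary _
  have hy : ∀ i (h : i ∈ J), y i = x ⟨i, h⟩ := fun i h => dif_pos h
  by_cases hk : ∃ j w, zc y = Z.k j w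
  · obtain ⟨j, w, hjw⟩ := hk
    let v : X (some i₀) := (show E from w)
    refine ⟨Function.update y (some i₀) v, ?_, ?_⟩
    · intro j' w' h
      refine ⟨i₀, ?_⟩
      have h1 : zc (Function.update y (some i₀) v) = zc y :=
        Function.update_of_ne (a := (none : Option Om)) (a' := some i₀) (by simp) v y
      rw [h1, hjw] at h
      have h2 : w = w' := by
        cases h
        rfl
      have h3 : Function.update y (some i₀) v (some i₀) = v := Function.update_self (some i₀) v y
      have h4 : ec (Function.update y (some i₀) v) i₀ = w := h3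
      rw [h4, h2]
    · funext ⟨i, hi⟩
      have hne' : i ≠ some i₀ := by
        rintro rfl
        exact hi₀ hi
      exact (Function.update_of_ne hne' v y).trans (hy i hi)
  · refine ⟨y, fun j w h => absurd ⟨j, w, h⟩ hk, ?_⟩
    funext ⟨i, hi⟩
    exact hy i hi

/-- There are a `T1` product and a completely regular subspace filling all countable subproducts
such that some factor is not completely regular. -/
theorem result : ∃ (ι : Type) (X : ι → Type) (_ : ∀ i, TopologicalSpace (X i))
    (D : Set (∀ i, X i)), T1Space (∀ i, X i) ∧ FillsCountableSubproducts D ∧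
      T1Space D ∧ CompletelyRegularSpace D ∧ ∃ i, T1Space (X i) ∧ ¬ CompletelyRegularSpace (X i) :=
  ⟨Option Om, X, inferInstance, D, inferInstance, fills_D, inferInstance, completelyRegular_D,
    none, inferInstance, not_completelyRegular⟩

end Pool.Agent.Results.MP_9641f2_gt.CompletelyRegularFails
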