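import Mathlib
import Pool.Agent.Q175.FillPara

/-!
# Factors of a product with a paracompact subspace filling all countable subproducts

Such factors are paracompact.
-/

open Set Topology

namespace Pool.Agent.Results.MP_9641f2_gt.CountableParacompact

/-- `D` fills all countable subproducts: for every non-empty countable set `J` of indices, the
projection of `D` to the subproduct over `J` is onto. -/
def FillsCountableSubproducts {ι : Type*} {X : ι → Type*} (D : Set (∀ i, X i)) : Prop :=
  ∀ J : Set ι, J.Nonempty → J.Countable →
    (fun (x : ∀ i, X i) (j : J) => x j) '' D = (univ : Set (∀ j : J, X j))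

theorem fills {ι : Type*} {X : ι → Type*} [∀ i, Nonempty (X i)] {D : Set (∀ i, X i)} (i₀ : ι)
    (hD : FillsCountableSubproducts D) : Q175.Fill.FillsCountable D := by
  intro J hJ x
  have h1 : (fun j : (insert i₀ J : Set ι) => x j) ∈
      (fun (x : ∀ i, X i) (j : (insert i₀ J : Set ι)) => x j) '' D := by
    rw [hD (insert i₀ J) (insert_nonempty _ _) (hJ.insert _)]
    exact mem_univ _
  obtain ⟨d, hd, hdx⟩ := h1
  exact ⟨d, hd, fun i hi => congrFun hdx ⟨i, mem_insert_of_mem _ hi⟩⟩

/-- If the product is `T1` and `D` fills all countable subproducts and is paracompact and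
Hausdorff, then every factor is paracompact and Hausdorff. -/
theorem result {ι : Type*} {X : ι → Type*} [∀ i, TopologicalSpace (X i)] [T1Space (∀ i, X i)]
    (D : Set (∀ i, X i)) (hD : FillsCountableSubproducts D) (hT2 : T2Space D)
    (hpara : ParacompactSpace D) (i : ι) : T2Space (X i) ∧ ParacompactSpace (X i) := by
  classical
  rcases isEmpty_or_nonempty (X i) with hi | ⟨⟨x₀⟩⟩
  · exact ⟨⟨fun x => hi.elim x⟩, ⟨fun S G _ _ => ⟨S, G, by assumption, by assumption,
      fun x => hi.elim x, fun s => ⟨s, subset_rfl⟩⟩⟩⟩
  -- a point of `D`
  have h1 : (fun j : ({i} : Set ι) => (by rw [show (j : ι) = i from j.2]; exact x₀ : X j)) ∈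
      (fun (x : ∀ i, X i) (j : ({i} : Set ι)) => x j) '' D := by
    rw [hD {i} (singleton_nonempty _) (countable_singleton _)]
    exact mem_univ _
  obtain ⟨d, _, _⟩ := h1
  have hne : ∀ i, Nonempty (X i) := fun i => ⟨d i⟩
  have hF := fills i hD
  have hreg : RegularSpace (X i) := Q175.Fill.regular_factor hF i
  have hT1 : T1Space (X i) := by
    have hc : Continuous fun z : X i => Function.update d i z :=
      continuous_const.update i continuous_id
    exact t1Space_of_injective_of_continuous (Function.update_injective d i) hc
  exact ⟨inferInstance, Q175.Fill.paracompact_factor hF i⟩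

end Pool.Agent.Results.MP_9641f2_gt.CountableParacompact
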