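import Mathlib
import Pool.Agent.Q175.PlankZ

/-!
# A paracompact subspace filling all finite subproducts

The product has factors that are not completely regular.
-/

open Set Filter Topology Cardinal
open Q175.O1 Q175.PlankZ

namespace Pool.Agent.Results.MP_9641f2_gt.FiniteFilling

/-- `D` fills all finite subproducts: for every non-empty finite set `J` of indices, the
projection of `D` to the subproduct over `J` is onto. -/
def FillsFiniteSubproducts {ι : Type*} {X : ι → Type*} (D : Set (∀ i, X i)) : Prop :=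
  ∀ J : Set ι, J.Nonempty → J.Finite →
    (fun (x : ∀ i, X i) (j : J) => x j) '' D = (univ : Set (∀ j : J, X j))

/-- A regular space is paracompact if it is covered by the points `p s`, with ranks `r s`, such
that for each rank the points of that rank have a locally finite open expansion. -/
theorem paracompact_of_expansion {Y S : Type} [TopologicalSpace Y] [RegularSpace Y] (p : S → Y)
    (hp : Function.Surjective p) (r : S → ℕ) (O : S → Set Y) (hO : ∀ s, IsOpen (O s))
    (hpO : ∀ s, p s ∈ O s)
    (hlf : ∀ n (y : Y), ∃ N ∈ 𝓝 y, {s | r s = n ∧ (O s ∩ N).Nonempty}.Finite) :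
    ParacompactSpace Y := by
  classical
  refine ⟨fun T G hG hcov => ?_⟩
  have h1 : ∀ y, ∃ t, y ∈ G t := fun y => mem_iUnion.1 (hcov ▸ mem_univ y)
  choose τ hτ using h1
  -- shrinkings
  have h2 : ∀ s, ∃ N : Set Y, IsOpen N ∧ p s ∈ N ∧ N ⊆ O s ∧ N ⊆ G (τ (p s)) := fun s =>
    ⟨O s ∩ G (τ (p s)), (hO s).inter (hG _), ⟨hpO s, hτ _⟩, inter_subset_left, inter_subset_right⟩
  choose N hN hpN hNO hNG using h2
  have h3 : ∀ s, ∃ M : Set Y, IsOpen M ∧ p s ∈ M ∧ closure M ⊆ N s := by
    intro s
    obtain ⟨C, hC, hCc, hCN⟩ := exists_mem_nhds_isClosed_subset ((hN s).mem_nhds (hpN s))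
    obtain ⟨M, hMC, hM, hpM⟩ := mem_nhds_iff.1 hC
    exact ⟨M, hM, hpM, (hCc.closure_subset_iff.2 hMC).trans hCN⟩
  choose M hM hpM hMN using h3
  have hcl : ∀ n, IsClosed (⋃ s : {s // r s = n}, closure (M s)) := by
    intro n
    refine LocallyFinite.isClosed_iUnion (fun y => ?_) fun _ => isClosed_closure
    obtain ⟨P, hP, hfin⟩ := hlf n y
    refine ⟨P, hP, Finite.of_injOn (f := Subtype.val) (t := {s | r s = n ∧ (O s ∩ P).Nonempty})
      ?_ Subtype.val_injective.injOn hfin⟩
    rintro s ⟨z, hz, hzP⟩
    exact ⟨s.2, z, hNO _ (hMN _ hz), hzP⟩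
  have hcl2 : ∀ n, IsClosed (⋃ m : Fin n, ⋃ s : {s // r s = m}, closure (M s)) := fun n =>
    isClosed_iUnion_of_finite fun m => hcl m
  refine ⟨S, fun s => N s \ ⋃ m : Fin (r s), ⋃ s' : {s' // r s' = m}, closure (M s'), ?_, ?_,
    ?_, ?_⟩
  · intro s
    exact (hN s).sdiff (hcl2 _)
  · refine iUnion_eq_univ_iff.2 fun y => ?_
    have hex : ∃ n, ∃ s, r s = n ∧ y ∈ closure (M s) := by
      obtain ⟨s, rfl⟩ := hp y
      exact ⟨r s, s, rfl, subset_closure (hpM s)⟩
    obtain ⟨s, hs, hys⟩ := Nat.find_spec hex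
    refine ⟨s, hMN s hys, fun hcon => ?_⟩
    obtain ⟨m, hm⟩ := mem_iUnion.1 hcon
    obtain ⟨s', hs'⟩ := mem_iUnion.1 hm
    have h4 : Nat.find hex ≤ m := Nat.find_min' hex ⟨s', s'.2, hs'⟩
    have h5 := m.2
    omega
  · intro y
    obtain ⟨s, rfl⟩ := hp y
    choose P hP hPfin using fun n => hlf n (p s)
    refine ⟨M s ∩ ⋂ n : Fin (r s + 1), P n, inter_mem ((hM s).mem_nhds (hpM s))
      (iInter_mem.2 fun n => hP n), ?_⟩
    refine (Set.finite_iUnion (ι := Fin (r s + 1)) fun n => hPfin n).subset ?_
    rintro t ⟨z, ⟨hz1, hz2⟩, hz3, hz4⟩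
    have hle : r t ≤ r s := by
      by_contra hlt
      refine hz2 (mem_iUnion.2 ⟨⟨r s, not_le.1 hlt⟩, mem_iUnion.2 ⟨⟨s, rfl⟩, subset_closure hz3⟩⟩)
    refine mem_iUnion.2 ⟨⟨r t, Nat.lt_succ_of_le hle⟩, rfl, z, hNO t hz1, ?_⟩
    exact mem_iInter.1 hz4 _
  · intro s
    exact ⟨τ (p s), sdiff_subset.trans (hNG s)⟩

/-! ### The example -/

instance : Infinite Z := Infinite.of_injective (fun n => Z.k n (Classical.arbitrary W))
  fun m n h => by cases h; rfl

/-- A discrete copy of `Z`. -/
def E : Type := Z

instance : TopologicalSpace E := ⊥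

instance : DiscreteTopology E := ⟨rfl⟩

instance : Nonempty E := ⟨(Z.top : Z)⟩

/-- The factors. -/
abbrev B : Type := Z × E

/-- Finite sequences can be coded by elements of `E`. -/
theorem exists_code : Nonempty (Option (List B) ↪ E) := by
  rw [← Cardinal.le_def]
  have h0 : ℵ₀ ≤ #Z := aleph0_le_mk Z
  have h1 : #E = #Z := rfl
  have h2 : #B = #Z := by
    rw [mk_prod, lift_id, lift_id, h1]
    exact mul_eq_self h0
  have h3 : #(List B) = #B := mk_list_eq_mk B
  rw [mk_option, h3, h2, h1, add_one_eq h0]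

/-- The coding. -/
noncomputable def cod : Option (List B) ↪ E := exists_code.some

/-- The point attached to a finite sequence `s`. -/
noncomputable def pt (s : List B) (n : ℕ) : B :=
  (s ++ [(Z.top, cod (some s))]).getD n (Z.top, cod none)

theorem pt_length (s : List B) : pt s s.length = (Z.top, cod (some s)) := by
  simp [pt]

theorem pt_of_lt (s : List B) {n : ℕ} (h : n < s.length) : pt s n = s[n] := by
  simp [pt, List.getElem?_append_left h, h]

/-- The subspace. -/
def D : Set (ℕ → B) := range pt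

/-- The points of `D`. -/
noncomputable def p (s : List B) : D := ⟨pt s, s, rfl⟩

theorem surjective_p : Function.Surjective p := by
  rintro ⟨_, s, rfl⟩
  exact ⟨s, rfl⟩

/-- The open expansion. -/
def O (s : List B) : Set D := {y | (y.1 s.length).2 = cod (some s)}

theorem isOpen_coord (n : ℕ) (e : E) : IsOpen {y : D | (y.1 n).2 = e} := by
  have h1 : Continuous fun y : D => (y.1 n).2 :=
    continuous_snd.comp ((continuous_apply n).comp continuous_subtype_val)
  exact (isOpen_discrete ({e} : Set E)).preimage h1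

theorem hlf (n : ℕ) (y : D) :
    ∃ N ∈ 𝓝 y, {s : List B | s.length = n ∧ (O s ∩ N).Nonempty}.Finite := by
  refine ⟨{y' : D | (y'.1 n).2 = (y.1 n).2}, (isOpen_coord n _).mem_nhds rfl, ?_⟩
  refine Set.Subsingleton.finite ?_
  rintro s ⟨rfl, y', hy', hz'⟩ t ⟨ht, y'', hy'', hz''⟩
  have e1 : cod (some s) = (y.1 s.length).2 :=
    (show (y'.1 s.length).2 = cod (some s) from hy').symm.trans hz'
  have e2 : cod (some t) = (y.1 s.length).2 := by
    refine (show (y''.1 t.length).2 = cod (some t) from hy'').symm.trans ?_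
    rw [ht]
    exact hz''
  exact Option.some_injective _ (cod.injective (e1.trans e2.symm))

theorem paracompact_D : ParacompactSpace D :=
  paracompact_of_expansion p surjective_p List.length O (fun _ => isOpen_coord _ _)
    (fun s => congrArg Prod.snd (pt_length s)) hlf

theorem fills_D : FillsFiniteSubproducts (X := fun _ : ℕ => B) D := by
  classical
  intro J _ hJ
  refine eq_univ_of_forall fun x => ?_
  obtain ⟨N, hN⟩ := hJ.bddAbove
  let y : ℕ → B := fun i => if h : i ∈ J then x ⟨i, h⟩ else (Z.top, cod none)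
  have hy : ∀ i (h : i ∈ J), y i = x ⟨i, h⟩ := fun i h => dif_pos h
  refine ⟨pt (List.ofFn fun i : Fin (N + 1) => y i), ⟨_, rfl⟩, ?_⟩
  funext ⟨i, hi⟩
  have h1 : i < (List.ofFn fun i : Fin (N + 1) => y i).length := by
    rw [List.length_ofFn]
    exact Nat.lt_succ_of_le (hN hi)
  show pt _ i = _
  rw [pt_of_lt _ h1, List.getElem_ofFn]
  exact hy i hi

theorem not_completelyRegular_B : ¬ CompletelyRegularSpace B := by
  intro h
  apply not_completelyRegular
  have h1 : Topology.IsEmbedding fun z : Z => ((z, cod none) : B) :=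
    Function.LeftInverse.isEmbedding (f := Prod.fst) (fun _ => rfl) continuous_fst
      (by fun_prop)
  exact h1.isInducing.completelyRegularSpace

theorem not_normal_B : ¬ NormalSpace B := by
  intro h
  apply not_completelyRegular_B
  infer_instance

theorem not_paracompact_B : ¬ ParacompactSpace B := by
  intro h
  apply not_normal_B
  infer_instance

/-- There are a `T1` product and a subspace filling all finite subproducts that is Hausdorff and
paracompact (hence normal and completely regular), such that no factor is completely regular,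
normal or paracompact. -/
theorem result : ∃ (ι : Type) (X : ι → Type) (_ : ∀ i, TopologicalSpace (X i))
    (D : Set (∀ i, X i)), Nonempty ι ∧ T1Space (∀ i, X i) ∧ FillsFiniteSubproducts D ∧
      T2Space D ∧ ParacompactSpace D ∧ NormalSpace D ∧ CompletelyRegularSpace D ∧
      ∀ i, T2Space (X i) ∧ ¬ ParacompactSpace (X i) ∧ ¬ NormalSpace (X i) ∧
        ¬ CompletelyRegularSpace (X i) := by
  have := paracompact_D
  have h4 : T4Space D := inferInstance
  exact ⟨ℕ, fun _ => B, inferInstance, D, inferInstance, inferInstance, fills_D, inferInstance,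
    paracompact_D, inferInstance, inferInstance, fun _ => ⟨inferInstance, not_paracompact_B,
    not_normal_B, not_completelyRegular_B⟩⟩

end Pool.Agent.Results.MP_9641f2_gt.FiniteFilling
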