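import Mathlib
import Pool.Agent.Q176.NF.Product
import Pool.Agent.Results.MP_9641f2_gt.FiniteFilling
import Pool.Agent.Results.MP_9641f2_gt.CountableParacompact
import Pool.Agent.Results.MP_9641f2_gt.CompletelyRegularFails

/-!
# Factors of a product with a subspace filling the countable or finite subproducts

The complete answer: under the countable filling hypothesis paracompactness of the subspace passes
to the factors, but normality and complete regularity do not; under the finite filling hypothesis
none of the three properties passes to the factors.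
-/

open Set Topology

namespace Pool.Agent.Results.MP_9641f2_gt.FullAnswer

/-- `D` fills all countable subproducts: for every non-empty countable set `J` of indices, the
projection of `D` to the subproduct over `J` is onto. -/
def FillsCountableSubproducts {ι : Type*} {X : ι → Type*} (D : Set (∀ i, X i)) : Prop :=
  ∀ J : Set ι, J.Nonempty → J.Countable →
    (fun (x : ∀ i, X i) (j : J) => x j) '' D = (univ : Set (∀ j : J, X j))

/-- `D` fills all finite subproducts: for every non-empty finite set `J` of indices, the
projection of `D` to the subproduct over `J` is onto. -/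
def FillsFiniteSubproducts {ι : Type*} {X : ι → Type*} (D : Set (∀ i, X i)) : Prop :=
  ∀ J : Set ι, J.Nonempty → J.Finite →
    (fun (x : ∀ i, X i) (j : J) => x j) '' D = (univ : Set (∀ j : J, X j))

/-- The answers to all parts of the question. -/
theorem result :
    -- countable filling, (a): yes
    (∀ (ι : Type*) (X : ι → Type*) [∀ i, TopologicalSpace (X i)] (D : Set (∀ i, X i)),
      T1Space (∀ i, X i) → FillsCountableSubproducts D → T2Space D → ParacompactSpace D →
        ∀ i, T2Space (X i) ∧ ParacompactSpace (X i)) ∧
    -- countable filling, (b): no, even if all factors are completely regular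
    (∃ (ι : Type) (X : ι → Type) (_ : ∀ i, TopologicalSpace (X i)) (D : Set (∀ i, X i)),
      (∀ i, T1Space (X i) ∧ CompletelyRegularSpace (X i)) ∧ T1Space (∀ i, X i) ∧
        FillsCountableSubproducts D ∧ T1Space D ∧ NormalSpace D ∧ ∃ i, ¬ NormalSpace (X i)) ∧
    -- countable filling, (c): no
    (∃ (ι : Type) (X : ι → Type) (_ : ∀ i, TopologicalSpace (X i)) (D : Set (∀ i, X i)),
      T1Space (∀ i, X i) ∧ FillsCountableSubproducts D ∧ T1Space D ∧
        CompletelyRegularSpace D ∧ ∃ i, T1Space (X i) ∧ ¬ CompletelyRegularSpace (X i)) ∧
    -- finite filling, (a), (b) and (c): no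
    (∃ (ι : Type) (X : ι → Type) (_ : ∀ i, TopologicalSpace (X i)) (D : Set (∀ i, X i)),
      Nonempty ι ∧ T1Space (∀ i, X i) ∧ FillsFiniteSubproducts D ∧
        T2Space D ∧ ParacompactSpace D ∧ NormalSpace D ∧ CompletelyRegularSpace D ∧
        ∀ i, T2Space (X i) ∧ ¬ ParacompactSpace (X i) ∧ ¬ NormalSpace (X i) ∧
          ¬ CompletelyRegularSpace (X i)) := by
  refine ⟨?_, ?_, CompletelyRegularFails.result, FiniteFilling.result⟩
  · intro ι X _ D hT1 hD hT2 hP i
    exact CountableParacompact.result D hD hT2 hP i
  · obtain ⟨ι, X, τ, D, h1, h2, h3, h4, h5, h6⟩ := Q176.NF.normal_fails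
    refine ⟨ι, X, τ, D, fun i => ⟨?_, (h1 i).2⟩, h2, fun J _ hJ => h3 J hJ, h4, h5, h6⟩
    have := (h1 i).1
    infer_instance

end Pool.Agent.Results.MP_9641f2_gt.FullAnswer
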